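import Pool.Agent.Helper69.TY.V3

/-!
MP_8ee768_co, project TH-Y', stage 0: the fast text of helper69's function `V3.dfs`.

The kernel evaluates a step of `V3.dfs` through many small definitions with binders. Here the
intermediate values of a step are written out as repeated closed subterms (they are shared, and the
kernel finds their values in its cache), and the minor premises of the recursors are constants.
`part_eq`: the check of a part by the fast text is the check by `V3.part`.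
-/

set_option autoImplicit false

namespace Pool.Agent.Helper77.TY.V3F

open Pool.Agent.Helper69.TY
open Pool.Agent.Helper69.TY.V3 (Fn cS c8S c2S c3S cT c7T c8Q c7Q kT kD kP cB oth cnt tot)

noncomputable section

/-- hit child: go on, with the bad triples and without the quads above them -/
def h4 (zm : ℕ) (ih kn : Fn) (rest N1 S N3 : ℕ) : ℕ :=
  kn rest N1 (ih (Nat.sub N3 (Nat.land (Nat.land (Nat.add (Nat.mul (Nat.land N3 (Nat.land
    (Nat.shiftRight (Nat.lor (Nat.add (Nat.mul (Nat.land (Nat.shiftRight (Nat.add N3 c3S)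
    (nat_lit 3)) cS) kP) (Nat.mul (Nat.shiftRight N3 (nat_lit 8192)) cT)) (Nat.add (Nat.mul
    (Nat.land (Nat.land (Nat.shiftRight (Nat.add N3 c3S) (nat_lit 3)) cS) zm) kP) c7T)) (nat_lit
    3)) cT)) cS) c7Q) c8Q) N3)) (Nat.land (Nat.shiftRight (Nat.lor (Nat.add (Nat.mul (Nat.land
    (Nat.shiftRight (Nat.add N3 c3S) (nat_lit 3)) cS) kP) (Nat.mul (Nat.shiftRight N3 (nat_lit
    8192)) cT)) (Nat.add (Nat.mul (Nat.land (Nat.land (Nat.shiftRight (Nat.add N3 c3S) (nat_lit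
    3)) cS) zm) kP) c7T)) (nat_lit 3)) cT) S)

/-- hit child: tests -/
def h3 (zm : ℕ) (ih kn : Fn) (rest N1 S G N3 : ℕ) : ℕ :=
  @Bool.rec (fun _ => ℕ) (kn rest N1 S) (h4 zm ih kn rest N1 S N3)
    (Nat.beq (Nat.lor (Nat.land G zm) (Nat.land N3 cB)) (nat_lit 0))

/-- hit child: carry -/
def h1 (zm : ℕ) (ih kn : Fn) (rest N1 S N2 : ℕ) : ℕ :=
  h3 zm ih kn rest N1 S (Nat.land (Nat.shiftRight (Nat.add N2 c2S) (nat_lit 3)) cS) (Nat.sub
    (Nat.add N2 (Nat.shiftLeft (Nat.mod (Nat.land (Nat.shiftRight (Nat.add N2 c2S) (nat_lit 3))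
    cS) (nat_lit 15)) (nat_lit 8192))) (Nat.mul (nat_lit 3) (Nat.land (Nat.shiftRight (Nat.add
    N2 c2S) (nat_lit 3)) cS)))

/-- child without hit -/
def f1 (ih kn : Fn) (Zt rest N1 S tm : ℕ) : ℕ :=
  kn rest N1 (ih (Nat.sub (Nat.add N1 tm) (Nat.land (Nat.land (Nat.add (Nat.mul (Nat.land tm
    Zt) cS) c7Q) c8Q) (Nat.add N1 tm))) Zt S)

/-- child -/
def c0 (zm : ℕ) (ih kn : Fn) (Zt m al N S : ℕ) : ℕ :=
  @Bool.rec (fun _ => ℕ)
    (h1 zm ih kn (Nat.land al (Nat.sub al (nat_lit 1))) (Nat.sub N (Nat.shiftLeft (Nat.sub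
      al (Nat.land al (Nat.sub al (nat_lit 1)))) m)) S
      (Nat.add (Nat.xor (Nat.sub N (Nat.shiftLeft (Nat.sub al (Nat.land al (Nat.sub al
        (nat_lit 1)))) m)) (Nat.land (Nat.shiftRight (Nat.mul (Nat.shiftLeft (Nat.sub al
        (Nat.land al (Nat.sub al (nat_lit 1)))) m) kT) (nat_lit 4099)) cT)) (Nat.land
        (Nat.shiftRight (Nat.mul (Nat.land (Nat.sub N (Nat.shiftLeft (Nat.sub al (Nat.land al
        (Nat.sub al (nat_lit 1)))) m)) (Nat.land (Nat.shiftRight (Nat.mul (Nat.shiftLeft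
        (Nat.sub al (Nat.land al (Nat.sub al (nat_lit 1)))) m) kT) (nat_lit 4099)) cT)) kD)
        (nat_lit 6144)) c3S)))
    (f1 ih kn Zt (Nat.land al (Nat.sub al (nat_lit 1))) (Nat.sub N (Nat.shiftLeft (Nat.sub
      al (Nat.land al (Nat.sub al (nat_lit 1)))) m)) S (Nat.land (Nat.shiftRight (Nat.mul
      (Nat.shiftLeft (Nat.sub al (Nat.land al (Nat.sub al (nat_lit 1)))) m) kT) (nat_lit
      4099)) cT))
    (Nat.beq (Nat.land (Nat.sub N (Nat.shiftLeft (Nat.sub al (Nat.land al (Nat.sub al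
      (nat_lit 1)))) m)) (Nat.land (Nat.shiftRight (Nat.mul (Nat.shiftLeft (Nat.sub al
      (Nat.land al (Nat.sub al (nat_lit 1)))) m) kT) (nat_lit 4099)) cT)) (nat_lit 0))

/-- the children -/
def ks (zm : ℕ) (ih : Fn) (Zt m : ℕ) (_ : ℕ) (kn : Fn) (al N S : ℕ) : ℕ :=
  @Bool.rec (fun _ => ℕ) (c0 zm ih kn Zt m al N S) S (Nat.beq al (nat_lit 0))

/-- a node -/
def nd (zm : ℕ) (ot : Fn) (_ : ℕ) (ih : Fn) (N Zt S : ℕ) : ℕ :=
  @Bool.rec (fun _ => ℕ) (ot N (Nat.shiftRight S (nat_lit 12)) (Nat.land S (nat_lit 16380)))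
    (@Nat.rec (fun _ => Fn) (fun _ _ _ => nat_lit 0) (ks zm ih Zt (Nat.land S (nat_lit
      8188))) (nat_lit 9)
      (Nat.land (Nat.shiftRight N (Nat.land S (nat_lit 8188))) c8S) N (Nat.shiftRight S
        (nat_lit 12)))
    (Nat.beq (Nat.land (Nat.shiftRight N (Nat.land S (nat_lit 8188))) (nat_lit 15)) (nat_lit
      6))

/-- the search -/
def dfs (zm : ℕ) (ot : Fn) (n : ℕ) : Fn :=
  @Nat.rec (fun _ => Fn) (fun _ _ _ => nat_lit 0) (nd zm ot) n

/-- a part: zero points, calls (state, count, place), state and count of the part, stream -/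
def part (zm : ℕ) (J : List ((ℕ × ℕ) × ℕ)) (j : ℕ × ℕ) (T : ℕ) : Bool :=
  @Bool.rec (fun _ => Bool) false
    (@Bool.rec (fun _ => Bool) false
      (Nat.ble (Nat.add (cnt T) (tot J)) j.2)
      (Nat.ble T (Nat.shiftLeft (nat_lit 1) (nat_lit 15600))))
    (Nat.beq (Nat.shiftRight (dfs zm (oth T J) (nat_lit 60) j.1 (V3.zt zm j.1) T) (nat_lit 2)) (nat_lit 1))

theorem h4_eq (zm : ℕ) (ih kn : Fn) (rest N1 S N3 : ℕ) :
    h4 zm ih kn rest N1 S N3 = V3.h4 ih kn rest N1 S N3 (V3.zt zm N3) := by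
  unfold h4 V3.h4 V3.pr V3.zt V3.zt1
  rfl

theorem h3_eq (zm : ℕ) (ih kn : Fn) (rest N1 S G N3 : ℕ) :
    h3 zm ih kn rest N1 S G N3 = V3.h3 zm ih kn rest N1 S G N3 := by
  unfold h3 V3.h3
  rw [h4_eq]

theorem h1_eq (zm : ℕ) (ih kn : Fn) (rest N1 S N2 : ℕ) :
    h1 zm ih kn rest N1 S N2 = V3.h1 zm ih kn rest N1 S N2 := by
  unfold h1 V3.h1 V3.h2
  rw [h3_eq]

theorem f1_eq (ih kn : Fn) (Zt rest N1 S tm : ℕ) :
    f1 ih kn Zt rest N1 S tm = V3.f1 ih kn Zt rest N1 S tm := by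
  unfold f1 V3.f1 V3.pr
  rfl

theorem c0_eq (zm : ℕ) (ih kn : Fn) (Zt m al N S : ℕ) :
    c0 zm ih kn Zt m al N S =
      V3.nx zm ih kn Zt m al N S (Nat.land al (Nat.sub al (nat_lit 1))) := by
  unfold c0 V3.nx V3.c0 V3.c1 V3.c2
  rw [h1_eq, f1_eq]

theorem kids_eq (zm : ℕ) (ih : Fn) (Zt m : ℕ) (n : ℕ) :
    V3.kids zm ih Zt m n = @Nat.rec (fun _ => Fn) (fun _ _ _ => nat_lit 0) (ks zm ih Zt m) n := by
  induction n with
  | zero => rfl
  | succ n hn =>
    funext al N S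
    show @Bool.rec (fun _ => ℕ) (V3.nx zm ih (V3.kids zm ih Zt m n) Zt m al N S
      (Nat.land al (Nat.sub al (nat_lit 1)))) S (Nat.beq al (nat_lit 0)) =
      ks zm ih Zt m n (@Nat.rec (fun _ => Fn) (fun _ _ _ => nat_lit 0) (ks zm ih Zt m) n) al N S
    unfold ks
    rw [c0_eq, hn]
    rfl

theorem nd_eq (zm : ℕ) (ot : Fn) (k : ℕ) (ih : Fn) (N Zt S : ℕ) :
    nd zm ot k ih N Zt S = V3.nd1 zm ot ih N Zt S (Nat.shiftRight S (nat_lit 12))
      (Nat.land S (nat_lit 8188)) := by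
  unfold nd V3.nd1 V3.nd2
  rw [kids_eq]

theorem dfs_eq (zm : ℕ) (ot : Fn) (n : ℕ) : dfs zm ot n = V3.dfs zm ot n := by
  induction n with
  | zero => rfl
  | succ n hn =>
    funext N Zt S
    show nd zm ot n (dfs zm ot n) N Zt S = V3.nd1 zm ot (V3.dfs zm ot n) N Zt S
      (Nat.shiftRight S (nat_lit 12)) (Nat.land S (nat_lit 8188))
    rw [nd_eq, hn]

/-- the fast text is the proved text -/
theorem part_eq (zm : ℕ) (J : List ((ℕ × ℕ) × ℕ)) (j : ℕ × ℕ) (T : ℕ) :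
    part zm J j T = V3.part zm J j T := by
  unfold part V3.part
  rw [dfs_eq]

end

end Pool.Agent.Helper77.TY.V3F
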